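import Pool.Agent.H.MP_cedc2d_lc.Defs

namespace Pool.Agent.H.MP_cedc2d_lc

open Finset

theorem glover {J : Type} [Fintype J] (W : J → Finset ℕ) (D : ℕ) (hD : ∀ j, W j ⊆ range D) (hn : ∀ j, (W j).Nonempty)
    (hc : ∀ j, ∀ u ∈ W j, ∀ v ∈ W j, ∀ k, u ≤ k → k ≤ v → k ∈ W j)
    (h : ∀ x y, x < y → y ≤ D → (univ.filter fun j => W j ⊆ Ico x y).card ≤ y - x) :
    ∃ f : J → ℕ, Function.Injective f ∧ ∀ j, f j ∈ W j := by
  classical
  have key : ∀ n, ∀ U : Finset ℕ, U.card = n → U ⊆ range D → (univ.filter fun j => W j ⊆ U).card ≤ U.card := fun n => by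
    induction n using Nat.strong_induction_on with
    | _ n ih =>
      intro U e hU
      rcases U.eq_empty_or_nonempty with rfl | ne
      · rw [filter_false_of_mem fun j _ h => (hn j).ne_empty (subset_empty.1 h)]; simp
      have ex : ∃ x, ∀ k, x ≤ k → k ≤ U.max' ne → k ∈ U :=
        ⟨U.max' ne, fun k a b => le_antisymm a b ▸ U.max'_mem ne⟩
      have x1 := Nat.find_spec ex
      have x2 : Nat.find ex ≤ U.max' ne := Nat.find_min' ex fun k a b => le_antisymm a b ▸ U.max'_mem ne
      have x3 : ∀ k, k + 1 = Nat.find ex → k ∉ U := fun k a b => Nat.find_min ex (show k < _ by omega) fun l c d => by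
        rcases c.eq_or_lt with rfl | c
        · exact b
        · exact x1 l (by omega) d
      generalize Nat.find ex = x at *
      have y1 := mem_range.1 (hU (U.max'_mem ne))
      have y2 : ∀ k ∈ U, k ≤ U.max' ne := fun k => U.le_max' k
      generalize U.max' ne = y at *
      have s : Ico x (y + 1) ⊆ U := fun k hk => x1 k (mem_Ico.1 hk).1 (by have := (mem_Ico.1 hk).2; omega)
      have c := card_sdiff_add_card_eq_card s
      rw [Nat.card_Ico] at c
      have a1 := ih _ (by omega) (U \ Ico x (y + 1)) rfl (sdiff_subset.trans hU)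
      have a2 := h x (y + 1) (by omega) y1
      refine (card_le_card (t := (univ.filter fun j => W j ⊆ U \ Ico x (y + 1)) ∪
        univ.filter fun j => W j ⊆ Ico x (y + 1)) fun j hj => ?_).trans ((card_union_le _ _).trans (by omega))
      simp only [mem_union, mem_filter, mem_univ, true_and] at hj ⊢
      by_contra! n
      obtain ⟨u, u1, u2⟩ := not_subset.1 n.1
      obtain ⟨v, v1, v2⟩ := not_subset.1 n.2
      have := y2 v (hj v1)
      simp only [mem_sdiff, hj u1, true_and, not_not, mem_Ico] at u2 v2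
      exact x3 (x - 1) (by omega) (hj (hc j v v1 u u1 _ (by omega) (by omega)))
  refine (all_card_le_biUnion_card_iff_exists_injective W).1 fun s => le_trans (card_le_card fun j hj => ?_)
    (key _ _ rfl (biUnion_subset.2 fun j _ => hD j))
  simpa using subset_biUnion_of_mem W hj

def cnt (D b x y d : ℕ) : ℕ := ((range d).filter fun j => x * d < j * D + b ∧ (j + 1) * D < y * d + b).card

theorem dev (X k d D N b : ℕ) (hb : D = N * b) (b0 : 0 < b) (N0 : 0 < N) :
    |(X : ℚ) - k * (d / (D : ℚ))| ≤ ((N - 1 : ℕ) : ℚ) / N ↔ X * D + b ≤ k * d + D ∧ k * d + b ≤ X * D + D := by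
  have D0 : (0 : ℚ) < D := by rw [hb]; positivity
  have e : ((N - 1 : ℕ) : ℚ) / N = (D - b) / D := by
    rw [Nat.cast_pred N0, hb]; push_cast; field_simp
  rw [e, show (X : ℚ) - k * (d / D) = (X * D - k * d) / D by field_simp, abs_div, abs_of_pos D0,
    div_le_div_iff_of_pos_right D0, abs_le]
  constructor
  · rintro ⟨h1, h2⟩
    exact ⟨by exact_mod_cast (by linarith : (X : ℚ) * D + b ≤ k * d + D),
      by exact_mod_cast (by linarith : (k : ℚ) * d + b ≤ X * D + D)⟩
  · rintro ⟨h1, h2⟩
    have h1 : (X : ℚ) * D + b ≤ k * d + D := by exact_mod_cast h1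
    have h2 : (k : ℚ) * d + b ≤ X * D + D := by exact_mod_cast h2
    constructor <;> linarith

theorem ar (j e D b : ℕ) (j1 : j < e) (b0 : 0 < b) (b2 : 2 * b ≤ D) :
    ∃ k < D, j * D + b ≤ (k + 1) * e ∧ k * e + b ≤ (j + 1) * D ∧ (j + 1) * D < (k + 1) * e + b := by
  have h1 : b ≤ (j + 1) * D := by nlinarith
  have h2 := Nat.div_mul_le_self ((j + 1) * D - b) e
  have h3 := Nat.lt_mul_div_succ ((j + 1) * D - b) (show 0 < e by omega)
  refine ⟨((j + 1) * D - b) / e, (Nat.div_lt_iff_lt_mul (by omega)).2 ?_, ?_, by omega, ?_⟩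
  · have := Nat.mul_le_mul_right D (show j + 1 ≤ e from j1)
    rw [mul_comm D]; omega
  · rw [mul_comm _ e]; rw [add_mul] at h3 h1; rw [add_mul j]; omega
  · rw [mul_comm _ e]; omega

theorem exists_seq (d : List ℕ) (N b : ℕ) (hd : ∀ x ∈ d, 0 < x) (hb : d.sum = N * b) (b0 : 0 < b) (N2 : 2 ≤ N)
    (h : ∀ x y, x < y → y ≤ d.sum → (d.map (cnt d.sum b x y)).sum ≤ y - x) : BJIT (d, N - 1, N) := by
  classical
  have hs : ∑ i : Fin d.length, d[i] = d.sum := by simp
  generalize hD : d.sum = D at h hb hs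
  have b2 : 2 * b ≤ D := hb ▸ Nat.mul_le_mul_right b N2
  have d0 : ∀ i : Fin d.length, 0 < d[i] := fun i => hd _ (List.getElem_mem _)
  obtain ⟨f, f1, f2⟩ := glover (J := Σ i : Fin d.length, Fin d[i])
    (fun j => (range D).filter fun k => j.2 * D + b ≤ (k + 1) * d[j.1] ∧ k * d[j.1] + b ≤ (j.2 + 1) * D) D
    (fun j => filter_subset _ _) (fun ⟨i, j⟩ => by
      obtain ⟨k, k1, k2, k3, -⟩ := ar j d[i] D b j.2 b0 b2
      exact ⟨k, mem_filter.2 ⟨mem_range.2 k1, k2, k3⟩⟩)
    (fun j u hu v hv k a c => by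
      simp only [mem_filter, mem_range] at hu hv ⊢
      have := Nat.mul_le_mul_right d[j.1] (Nat.succ_le_succ a)
      have := Nat.mul_le_mul_right d[j.1] c
      exact ⟨by omega, hu.2.1.trans ‹_›, by omega⟩)
    fun x y xy yD => by
      refine le_trans ?_ (h x y xy yD)
      rw [← Fin.sum_univ_fun_getElem, card_eq_sum_card_fiberwise (f := Sigma.fst) (t := univ) (by simp)]
      refine sum_le_sum fun i _ => card_le_card_of_injOn (fun j => j.2.1) ?_ ?_
      · rintro ⟨i, j⟩ hj
        simp only [coe_filter, mem_filter, mem_univ, true_and, Set.mem_setOf_eq] at hj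
        obtain ⟨hj, rfl⟩ := hj
        obtain ⟨k, k1, k2, k3, k4⟩ := ar j d[i] D b j.2 b0 b2
        simp only [coe_filter, mem_range, Set.mem_setOf_eq, Fin.getElem_fin] at hj k2 k3 k4 ⊢
        have h5 := mem_Ico.1 (hj (mem_filter.2 ⟨mem_range.2 k1, k2, k3⟩))
        refine ⟨j.2, ?_, ?_⟩
        · by_contra! n
          obtain _ | x := x
          · omega
          · have := Nat.mul_le_mul_right d[i.1] (show x ≤ k by omega)
            have := mem_Ico.1 (hj (mem_filter.2 ⟨mem_range.2 (show x < D by omega), n, by omega⟩))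
            omega
        · have := Nat.mul_le_mul_right d[i.1] (show k + 1 ≤ y by omega)
          omega
      · rintro ⟨i, j⟩ hj ⟨i', j'⟩ hj' e
        obtain rfl : i = _ := (mem_filter.1 hj).2
        obtain rfl : i' = _ := (mem_filter.1 hj').2
        exact congrArg _ (Fin.ext e)
  subst hD
  let e := Equiv.ofBijective (fun j => (⟨f j, mem_range.1 (mem_filter.1 (f2 j)).1⟩ : Fin d.sum))
    ((Fintype.bijective_iff_injective_and_card _).2 ⟨fun _ _ h => f1 (congrArg Fin.val h), by simp⟩)
  have c : ∀ (i) (p : ℕ → Prop) [DecidablePred p], (univ.filter fun t : Fin d.sum => p t ∧ (e.symm t).1 = i).card =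
      (univ.filter fun j : Fin d[i] => p (f ⟨i, j⟩)).card := fun i p _ => by
    symm
    refine card_bij (fun j _ => e ⟨i, j⟩) (fun j hj => by simpa [e] using hj) (fun _ _ _ _ h => by simpa using h)
      fun t ht => ?_
    obtain ⟨⟨i', j⟩, rfl⟩ := e.surjective t
    simp only [mem_filter, mem_univ, true_and, Equiv.symm_apply_apply] at ht
    obtain ⟨h1, rfl⟩ := ht
    exact ⟨j, by simpa [e] using h1, rfl⟩
  refine ⟨fun t => (e.symm t).1, fun i => by simpa using c i fun _ => True, fun i k k1 k2 => ?_⟩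
  refine (dev _ _ _ _ _ b hb b0 (by omega)).2 ?_
  rw [c i (· < k)]
  have g : ∀ j : Fin d[i], j * d.sum + b ≤ (f ⟨i, j⟩ + 1) * d[i] ∧ f ⟨i, j⟩ * d[i] + b ≤ (j + 1) * d.sum :=
    fun j => (mem_filter.1 (f2 ⟨i, j⟩)).2
  simp only
  generalize hX : (univ.filter fun j : Fin d[i] => f ⟨i, j⟩ < k).card = X
  constructor
  · by_contra! n
    obtain _ | X := X
    · omega
    have := card_le_card_of_injOn (s := univ.filter fun j : Fin d[i] => f ⟨i, j⟩ < k) (t := range X) Fin.val
      (fun j hj => by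
        have := Nat.mul_le_mul_right d[i] (show f ⟨i, j⟩ + 1 ≤ k by simpa using hj)
        have := (g j).1
        simp only [coe_range, Set.mem_Iio]
        by_contra! q
        have := Nat.mul_le_mul_right d.sum q
        rw [add_mul] at n; omega) Fin.val_injective.injOn
    rw [hX, card_range] at this; omega
  · by_contra! n
    have l : X < d[i] := by
      by_contra! q
      have := Nat.mul_le_mul_right d.sum q
      have := Nat.mul_le_mul_right d[i] k2
      rw [mul_comm d.sum] at this; omega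
    have := card_le_card_of_surjOn (s := univ.filter fun j : Fin d[i] => f ⟨i, j⟩ < k) (t := range (X + 1)) Fin.val
      (fun j hj => by
        have j1 : j ≤ X := by simpa [Nat.lt_succ_iff] using hj
        refine ⟨⟨j, by omega⟩, ?_, rfl⟩
        simp only [coe_filter, mem_univ, true_and, Set.mem_setOf_eq]
        by_contra! q
        have := Nat.mul_le_mul_right d[i] q
        have := (g ⟨j, by omega⟩).2
        have := Nat.mul_le_mul_right d.sum j1
        simp only [add_mul] at *; omega)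
    rw [hX, card_range] at this; omega

theorem no_seq (d : List ℕ) (N b y : ℕ) (hb : d.sum = N * b) (b0 : 0 < b) (N0 : 0 < N) (y1 : 1 ≤ y) (y2 : y ≤ d.sum)
    (t : List (ℕ × ℤ)) (ht : t.map Prod.fst = d) (h1 : ∀ p ∈ t, p.2 < b ∧ (d.sum : ℤ) ∣ y * p.1 - p.2)
    (h2 : 0 < (t.map Prod.snd).sum) : ¬BJIT (d, N - 1, N) := by
  rintro ⟨S, -, h⟩
  subst ht
  simp only at S h
  have c := card_eq_sum_card_fiberwise (s := univ.filter fun u : Fin (t.map Prod.fst).sum => u.1 < y) (t := univ)
    (f := S) (by simp)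
  rw [Fin.card_filter_val_lt, min_eq_right y2] at c
  simp only [filter_filter] at c
  have k : ∀ i : Fin (t.map Prod.fst).length,
      ((univ.filter fun u : Fin (t.map Prod.fst).sum => u.1 < y ∧ S u = i).card : ℤ) * (t.map Prod.fst).sum ≤
      y * (t.map Prod.fst)[i] - (t[i.1]'(by simpa using i.2)).2 := fun i => by
    have a := ((dev _ _ _ _ _ b hb b0 N0).1 (h i y y1 y2)).1
    obtain ⟨p1, q, p2⟩ := h1 _ (List.getElem_mem (show i.1 < t.length by simpa using i.2))
    simp only [Fin.getElem_fin, List.getElem_map] at a ⊢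
    generalize (univ.filter fun u : Fin (t.map Prod.fst).sum => u.1 < y ∧ S u = i).card = X at *
    have D0 : (0 : ℤ) < (t.map Prod.fst).sum := by exact_mod_cast y1.trans y2
    have a : (X : ℤ) * (t.map Prod.fst).sum + b ≤ y * (t[i.1]'(by simpa using i.2)).1 + (t.map Prod.fst).sum := by
      exact_mod_cast a
    rw [p2, mul_comm]
    refine mul_le_mul_of_nonneg_left (Int.lt_add_one_iff.1 (lt_of_mul_lt_mul_left ?_ D0.le)) D0.le
    linarith
  have := sum_le_sum (s := univ) fun i _ => k i
  rw [← sum_mul, sum_sub_distrib, ← mul_sum] at this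
  have e1 : ∑ i : Fin (t.map Prod.fst).length, (((t.map Prod.fst)[i] : ℕ) : ℤ) = (t.map Prod.fst).sum := by
    rw [← Nat.cast_sum]; exact congrArg _ (Fin.sum_univ_getElem _)
  have e2 : ∑ i : Fin (t.map Prod.fst).length, (t[i.1]'(by simpa using i.2)).2 = (t.map Prod.snd).sum := by
    rw [← Fin.sum_univ_fun_getElem]
    exact Fintype.sum_equiv (finCongr (by simp)) _ _ fun _ => rfl
  rw [e1, e2, ← Nat.cast_sum, ← c] at this
  linarith

end Pool.Agent.H.MP_cedc2d_lc
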