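import Pool.Agent.H.MP_cedc2d_lc.A

namespace Pool.Agent.H.MP_cedc2d_lc

open Finset

theorem tri {K u v : ℤ} (K0 : 0 < K) (h : K ∣ u - v) : u = v ∨ u + K ≤ v ∨ v + K ≤ u := by
  obtain ⟨k, h⟩ := h
  rcases lt_trichotomy k 0 with c | rfl | c
  · exact .inr (.inl (by nlinarith))
  · exact .inl (by linarith)
  · exact .inr (.inr (by nlinarith))

theorem dve {K u v : ℤ} (h : K ∣ u) (e : u = v) : K ∣ v := e ▸ h

theorem rep (D b z : ℤ) (D0 : 0 < D) : ∃ u t, z = D * u + t ∧ b - D ≤ t ∧ t < b :=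
  ⟨(z + D - b) / D, (z + D - b) % D + b - D, by linarith [Int.mul_ediv_add_emod (z + D - b) D],
    by linarith [Int.emod_nonneg (z + D - b) D0.ne'], by linarith [Int.emod_lt_of_pos (z + D - b) D0]⟩

theorem item (D b x y d : ℕ) (xy : x < y) (d0 : 0 < d) (b0 : 0 < b) (D0 : 0 < D) :
    ∃ t t' v : ℤ, t < b ∧ t' < b ∧ (D : ℤ) ∣ x * d - t ∧ (D : ℤ) ∣ -y * d - t' ∧
      (D : ℤ) * cnt D b x y d ≤ (y - x) * d + v ∧ (v = t + t' ∨ v = t + t' + D ∧ v < 0 ∧ t < -b ∧ t' < -b) := by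
  have D1 : (0 : ℤ) < D := by exact_mod_cast D0
  obtain ⟨u, t, e, t1, t2⟩ := rep D b (x * d) D1
  obtain ⟨u', t', e', t1', t2'⟩ := rep D b (-y * d) D1
  have c : cnt D b x y d ≤ (-u' - u).toNat := by
    rw [← Int.card_Ico]
    refine card_le_card_of_injOn Nat.cast (fun j hj => ?_) Nat.cast_injective.injOn
    obtain ⟨-, h1, h2⟩ := mem_filter.1 (mem_coe.1 hj)
    have h1 : (x : ℤ) * d < j * D + b := by exact_mod_cast h1
    have h2 : ((j : ℤ) + 1) * D < y * d + b := by exact_mod_cast h2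
    simp only [coe_Ico, Set.mem_Ico]
    constructor
    · exact Int.lt_add_one_iff.1 (lt_of_mul_lt_mul_left (a := (D : ℤ)) (by linarith) D1.le)
    · exact lt_of_mul_lt_mul_left (a := (D : ℤ)) (by linarith) D1.le
  have p : (0 : ℤ) < (y - x) * d := mul_pos (by omega) (by omega)
  rcases le_or_gt 0 (-u' - u) with w | w
  · refine ⟨t, t', t + t', t2, t2', ⟨u, by linarith⟩, ⟨u', by linarith⟩, ?_, .inl rfl⟩
    have := mul_le_mul_of_nonneg_left (show (cnt D b x y d : ℤ) ≤ -u' - u by omega) D1.le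
    linarith
  · have : -2 < -u' - u := lt_of_mul_lt_mul_left (a := (D : ℤ)) (by linarith [show (0 : ℤ) < b by omega]) D1.le
    obtain rfl : u = 1 - u' := by omega
    refine ⟨t, t', t + t' + D, t2, t2', ⟨1 - u', by linarith⟩, ⟨u', by linarith⟩, ?_, .inr ⟨rfl, ?_⟩⟩
    · rw [show cnt D b x y d = 0 by omega]; push_cast; linarith
    · refine ⟨by linarith, by linarith, by linarith⟩

/-- window condition -/
def Win (N e c : ℕ) (z : ℤ) (p : ℕ) : Prop :=
  ∃ t : ℤ, c * (N * e) - (N + 1) * e < t ∧ t < (N + 1) * e ∧ ((N + 1) * (N * e) : ℤ) ∣ z * p - t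

theorem lt_of {a g c : ℤ} (a0 : 0 < a) (h : g * a < (c + 1) * a) : g ≤ c :=
  Int.lt_add_one_iff.1 (lt_of_mul_lt_mul_right h a0.le)

theorem grp (N e c x y p : ℕ) (xy : x < y) (N4 : 4 < N) (e0 : 0 < e) (p0 : 0 < p) (p1 : p < c * (N * e)) :
    ∃ g g' h : ℤ, ((N + 1) * (N * e) : ℤ) * (cnt ((N + 1) * (N * e)) ((N + 1) * e) x y p +
        cnt ((N + 1) * (N * e)) ((N + 1) * e) x y (c * (N * e) - p)) ≤ (y - x) * (c * (N * e)) + h * (N * e) ∧
      (N + 1 : ℤ) ∣ g - c * x ∧ (N + 1 : ℤ) ∣ g' - c * -y ∧ g ≤ 2 ∧ g' ≤ 2 ∧ h ≤ 4 ∧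
      (h = g + g' ∨ g < 0 ∧ g' < 0 ∧ (h = g + g' + (N + 1) ∧ h ≤ 2 ∨ h = g + g' + 2 * (N + 1) ∧ h < 0)) ∧
      (g = c → Win N e c x p) ∧ (g' = c → Win N e c (-y) p) := by
  obtain ⟨t, t', v, a1, a2, a3, a4, a5, a6⟩ := item ((N + 1) * (N * e)) ((N + 1) * e) x y p xy p0
    (by positivity) (by positivity)
  obtain ⟨s, s', w, b1, b2, b3, b4, b5, b6⟩ := item ((N + 1) * (N * e)) ((N + 1) * e) x y (c * (N * e) - p) xy
    (by omega) (by positivity) (by positivity)
  push_cast [p1.le] at *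
  have e1 : (0 : ℤ) < e := by omega
  have n4 : (5 : ℤ) * e ≤ N * e := mul_le_mul_of_nonneg_right (by omega) e1.le
  have a0 : (0 : ℤ) < N * e := by linarith
  obtain ⟨k, hk⟩ := dvd_add a3 b3
  obtain ⟨k', hk'⟩ := dvd_add a4 b4
  have g1 : t + s = (c * x - (N + 1) * k) * (N * e) := by linarith
  have g2 : t' + s' = (c * -y - (N + 1) * k') * (N * e) := by linarith
  have d1 : (N + 1 : ℤ) ∣ c * x - (N + 1) * k - c * x := ⟨-k, by ring⟩
  have d2 : (N + 1 : ℤ) ∣ c * -y - (N + 1) * k' - c * -y := ⟨-k', by ring⟩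
  generalize c * x - (N + 1) * k = g at *
  generalize c * -y - (N + 1) * k' = g' at *
  have w1 : g = c → Win N e c x p := fun h => ⟨t, by rw [h] at g1; linarith, a1, a3⟩
  have w2 : g' = c → Win N e c (-y) p := fun h => ⟨t', by rw [h] at g2; linarith, a2, a4⟩
  have l1 : g ≤ 2 := lt_of a0 (by linarith)
  have l2 : g' ≤ 2 := lt_of a0 (by linarith)
  have n1 : t + s < 0 → g < 0 := fun h => lt_of_mul_lt_mul_right (a := (N : ℤ) * e) (by linarith) a0.le
  have n2 : t' + s' < 0 → g' < 0 := fun h => lt_of_mul_lt_mul_right (a := (N : ℤ) * e) (by linarith) a0.le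
  rcases a6 with a6 | ⟨a6, a7, a8, a9⟩ <;> rcases b6 with b6 | ⟨b6, b7, b8, b9⟩
  · exact ⟨g, g', g + g', by linarith, d1, d2, l1, l2, by omega, .inl rfl, w1, w2⟩
  · have : g + g' + (N + 1) ≤ 2 := lt_of a0 (by linarith)
    exact ⟨g, g', g + g' + (N + 1), by linarith, d1, d2, l1, l2, by omega,
      .inr ⟨n1 (by linarith), n2 (by linarith), .inl ⟨rfl, this⟩⟩, w1, w2⟩
  · have : g + g' + (N + 1) ≤ 2 := lt_of a0 (by linarith)
    exact ⟨g, g', g + g' + (N + 1), by linarith, d1, d2, l1, l2, by omega,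
      .inr ⟨n1 (by linarith), n2 (by linarith), .inl ⟨rfl, this⟩⟩, w1, w2⟩
  · have : g + g' + 2 * (N + 1) ≤ -1 := lt_of a0 (by linarith)
    exact ⟨g, g', g + g' + 2 * (N + 1), by linarith, d1, d2, l1, l2, by omega,
      .inr ⟨n1 (by linarith), n2 (by linarith), .inr ⟨rfl, by omega⟩⟩, w1, w2⟩

theorem single (N e x y : ℕ) (xy : x < y) (N4 : 4 < N) (e0 : 0 < e) :
    ∃ g g' h : ℤ, ((N + 1) * (N * e) : ℤ) * cnt ((N + 1) * (N * e)) ((N + 1) * e) x y (N * e) ≤
      (y - x) * (N * e) + h * (N * e) ∧ (N + 1 : ℤ) ∣ g - x ∧ (N + 1 : ℤ) ∣ g' - -y ∧ g ≤ 1 ∧ g' ≤ 1 ∧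
      (h = g + g' ∨ h = g + g' + (N + 1) ∧ h < 0) := by
  obtain ⟨t, t', v, a1, a2, ⟨k, hk⟩, ⟨k', hk'⟩, a5, a6⟩ := item ((N + 1) * (N * e)) ((N + 1) * e) x y (N * e) xy
    (by positivity) (by positivity) (by positivity)
  push_cast at *
  have e1 : (0 : ℤ) < e := by omega
  have n4 : (5 : ℤ) * e ≤ N * e := mul_le_mul_of_nonneg_right (by omega) e1.le
  have a0 : (0 : ℤ) < N * e := by linarith
  have g1 : t = (x - (N + 1) * k) * (N * e) := by linarith
  have g2 : t' = (-y - (N + 1) * k') * (N * e) := by linarith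
  have d1 : (N + 1 : ℤ) ∣ x - (N + 1) * k - x := ⟨-k, by ring⟩
  have d2 : (N + 1 : ℤ) ∣ -y - (N + 1) * k' - -y := ⟨-k', by ring⟩
  generalize x - (N + 1) * k = g at *
  generalize -y - (N + 1) * k' = g' at *
  have l1 : g ≤ 1 := lt_of a0 (by linarith)
  have l2 : g' ≤ 1 := lt_of a0 (by linarith)
  rcases a6 with a6 | ⟨a6, a7, a8, a9⟩
  · exact ⟨g, g', g + g', by linarith, d1, d2, l1, l2, .inl rfl⟩
  · have : g + g' + (N + 1) ≤ -1 := lt_of a0 (by linarith)
    exact ⟨g, g', g + g' + (N + 1), by linarith, d1, d2, l1, l2, .inr ⟨rfl, by omega⟩⟩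

def g4 (A p : ℕ) : List ℕ := [p, A - p, p, A - p]

def items (a : ℕ) (L1 L2 : List ℕ) : List ℕ := a :: (L1.flatMap (g4 (1 * a)) ++ L2.flatMap (g4 (2 * a)))

theorem g4_sum (A : ℕ) (L : List ℕ) (h : ∀ p ∈ L, 0 < p ∧ p < A) : (L.flatMap (g4 A)).sum = 2 * L.length * A := by
  induction L with
  | nil => simp
  | cons p L ih =>
    have := (h p (by simp)).2
    rw [List.flatMap_cons, List.sum_append, ih fun q hq => h q (by simp [hq])]
    simp only [g4, List.sum_cons, List.sum_nil, List.length_cons]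
    rw [mul_add, add_mul]; omega

theorem g4_le (A : ℕ) (L : List ℕ) (f : ℕ → ℕ) (D X a : ℤ) (H : ℕ → ℤ)
    (h : ∀ p ∈ L, D * (f p + f (A - p)) ≤ X + H p * a) :
    D * ((L.flatMap (g4 A)).map f).sum ≤ 2 * L.length * X + 2 * (L.map H).sum * a := by
  induction L with
  | nil => simp
  | cons p L ih =>
    have := h p (by simp)
    have := ih fun q hq => h q (by simp [hq])
    simp only [g4, List.flatMap_cons, List.map_append, List.sum_append, List.map_cons, List.sum_cons, List.map_nil,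
      List.sum_nil, List.length_cons] at this ⊢
    push_cast at *
    linarith

theorem sum_le (L : List ℕ) (H : ℕ → ℤ) (β : ℤ) (h : ∀ p ∈ L, H p ≤ β) : (L.map H).sum ≤ L.length * β := by
  simpa using List.sum_le_card_nsmul (L.map H) β (by simpa using h)

theorem sum_le' (L : List ℕ) (H : ℕ → ℤ) (β γ : ℤ) (h : ∀ p ∈ L, H p ≤ β) (q : ℕ) (hq : q ∈ L) (h' : H q + γ ≤ β) :
    (L.map H).sum + γ ≤ L.length * β := by
  obtain ⟨s, t, rfl⟩ := List.append_of_mem hq
  have := sum_le s H β fun p hp => h p (by simp [hp])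
  have := sum_le t H β fun p hp => h p (by simp [hp])
  simp only [List.map_append, List.sum_append, List.map_cons, List.sum_cons, List.length_append, List.length_cons]
  push_cast
  linarith

theorem items_sum (e : ℕ) (L1 L2 : List ℕ) (N : ℕ) (hN : N = 2 * L1.length + 4 * L2.length)
    (h1 : ∀ p ∈ L1, 0 < p ∧ p < 1 * (N * e)) (h2 : ∀ p ∈ L2, 0 < p ∧ p < 2 * (N * e)) :
    (items (N * e) L1 L2).sum = (N + 1) * (N * e) := by
  rw [items, List.sum_cons, List.sum_append, g4_sum _ _ h1, g4_sum _ _ h2]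
  generalize N * e = a
  rw [hN]; ring

theorem items_pos (a : ℕ) (L1 L2 : List ℕ) (a0 : 0 < a)
    (h1 : ∀ p ∈ L1, 0 < p ∧ p < 1 * a) (h2 : ∀ p ∈ L2, 0 < p ∧ p < 2 * a) : ∀ x ∈ items a L1 L2, 0 < x := by
  intro x hx
  simp only [items, g4, List.mem_cons, List.mem_append, List.mem_flatMap, List.not_mem_nil, or_false] at hx
  rcases hx with rfl | ⟨p, hp, hx⟩ | ⟨p, hp, hx⟩
  · exact a0
  · have := h1 p hp; omega
  · have := h2 p hp; omega

theorem yes (e : ℕ) (L1 L2 : List ℕ) (N : ℕ) (hN : N = 2 * L1.length + 4 * L2.length) (e0 : 0 < e)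
    (l2 : 2 ≤ L2.length) (l1 : L2.length ≤ L1.length)
    (h1 : ∀ p ∈ L1, 0 < p ∧ p < 1 * (N * e)) (h2 : ∀ p ∈ L2, 0 < p ∧ p < 2 * (N * e))
    (U : ∀ z : ℤ, ¬((∀ p ∈ L1, Win N e 1 z p) ∧ ∀ p ∈ L2, Win N e 2 z p)) : BJIT (items (N * e) L1 L2, N - 1, N) := by
  have N4 : 11 < N := by omega
  have hs := items_sum e L1 L2 N hN h1 h2
  refine exists_seq _ N ((N + 1) * e) (items_pos _ _ _ (by positivity) h1 h2) (by rw [hs]; ring) (by positivity)
    (by omega) fun x y xy _ => ?_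
  rw [hs]
  obtain ⟨g, g', h, a1, a2, a3, a4, a5, a6⟩ := single N e x y xy (by omega) e0
  choose! G G' H b1 b2 b3 b4 b5 b6 b7 b8 b9 using fun p (hp : p ∈ L1) =>
    grp N e 1 x y p xy (by omega) e0 (h1 p hp).1 (h1 p hp).2
  choose! J J' I c1 c2 c3 c4 c5 c6 c7 c8 c9 using fun p (hp : p ∈ L2) =>
    grp N e 2 x y p xy (by omega) e0 (h2 p hp).1 (h2 p hp).2
  have s1 := g4_le _ _ _ _ _ _ _ b1
  have s2 := g4_le _ _ _ _ _ _ _ c1
  have a0 : (0 : ℤ) < N * e := by positivity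
  have K0 : (0 : ℤ) < N + 1 := by positivity
  have hN' : (N : ℤ) = 2 * L1.length + 4 * L2.length := by exact_mod_cast hN
  suffices k : h + 2 * (L1.map H).sum + 2 * (L2.map I).sum ≤ N by
    rw [items, List.map_cons, List.sum_cons, List.map_append, List.sum_append]
    have := mul_le_mul_of_nonneg_right k a0.le
    have q : (y - x : ℤ) * (N * e) * N = (y - x) * (N * e) * (2 * L1.length + 4 * L2.length) := by rw [← hN']
    zify [xy.le]
    push_cast at *
    exact Int.lt_add_one_iff.1 (lt_of_mul_lt_mul_left (a := (N + 1 : ℤ) * (N * e)) (by linarith) (by positivity))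
  have key : ∀ u u' : ℤ, 0 ≤ u → u ≤ 1 → 0 ≤ u' → u' ≤ 1 → u = 1 ∨ u' = 1 → (N + 1 : ℤ) ∣ x - u →
      (N + 1 : ℤ) ∣ -y - u' → (∃ p ∈ L1, H p ≠ u + u') ∨ ∃ p ∈ L2, I p ≠ 2 * (u + u') := by
    intro u u' u1 u2 u3 u4 u5 d1 d2
    by_contra! n
    have k1 : ∀ p ∈ L1, G p = u ∧ G' p = u' := fun p hp => by
      have := tri (u := G p) (v := u) K0 (by refine dve (dvd_add (b2 p hp) d1) ?_; push_cast; ring)
      have := tri (u := G' p) (v := u') K0 (by refine dve (dvd_add (b3 p hp) d2) ?_; push_cast; ring)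
      have := b4 p hp
      have := b5 p hp
      have := b7 p hp
      have := n.1 p hp
      omega
    have k2 : ∀ p ∈ L2, J p = 2 * u ∧ J' p = 2 * u' := fun p hp => by
      have := tri (u := J p) (v := 2 * u) K0 (by refine dve (dvd_add (c2 p hp) (d1.mul_left 2)) ?_; push_cast; ring)
      have := tri (u := J' p) (v := 2 * u') K0 (by refine dve (dvd_add (c3 p hp) (d2.mul_left 2)) ?_; push_cast; ring)
      have := c4 p hp
      have := c5 p hp
      have := c7 p hp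
      have := n.2 p hp
      omega
    rcases u5 with rfl | rfl
    · exact U x ⟨fun p hp => b8 p hp (k1 p hp).1, fun p hp => c8 p hp (k2 p hp).1⟩
    · exact U (-y) ⟨fun p hp => b9 p hp (k1 p hp).2, fun p hp => c9 p hp (k2 p hp).2⟩
  obtain ⟨s, s0, s1, sd⟩ : ∃ s : ℤ, 0 ≤ s ∧ s < N + 1 ∧ (N + 1 : ℤ) ∣ x - y - s :=
    ⟨_, Int.emod_nonneg _ K0.ne', Int.emod_lt_of_pos _ K0, Int.dvd_self_sub_emod⟩
  have dv : ∀ c g g' h : ℤ, (N + 1 : ℤ) ∣ g - c * x → (N + 1 : ℤ) ∣ g' - c * -y →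
      (h = g + g' ∨ h = g + g' + (N + 1) ∨ h = g + g' + 2 * (N + 1)) → (N + 1 : ℤ) ∣ h - c * s := by
    intro c g g' h d1 d2 e
    have := dvd_add (dvd_add d1 d2) (sd.mul_left c)
    rcases e with rfl | rfl | rfl
    · refine dve (this) ?_; ring
    · refine dve (dvd_add this dvd_rfl) ?_; ring
    · refine dve (dvd_add this (dvd_mul_left (N + 1 : ℤ) 2)) ?_; ring
  have t0 := tri K0 (dv 1 g g' h (by simpa using a2) (by simpa using a3) (by tauto))
  have t1 : ∀ p ∈ L1, H p ≤ 4 ∧ (H p = s ∨ H p + (N + 1) ≤ s) := fun p hp => by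
    have := tri K0 (dv _ _ _ (H p) (b2 p hp) (b3 p hp) (by have := b7 p hp; tauto))
    have := b6 p hp
    omega
  have t2 : ∀ p ∈ L2, I p ≤ 4 ∧ (I p = 2 * s ∨ I p + (N + 1) ≤ 2 * s) := fun p hp => by
    have := tri K0 (dv _ _ _ (I p) (c2 p hp) (c3 p hp) (by have := c7 p hp; tauto))
    have := c6 p hp
    omega
  have fin : s ≤ 2 → ((∃ p ∈ L1, H p ≠ s) ∨ ∃ p ∈ L2, I p ≠ 2 * s) →
      (L1.map H).sum + (L2.map I).sum + (N + 1) ≤ L1.length * s + L2.length * (2 * s) := by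
    rintro s2 (⟨p, hp, n⟩ | ⟨p, hp, n⟩)
    · have := sum_le' L1 H s (N + 1) (fun p hp => by have := t1 p hp; omega) p hp (by have := t1 p hp; omega)
      have := sum_le L2 I (2 * s) fun p hp => by have := t2 p hp; omega
      omega
    · have := sum_le L1 H s fun p hp => by have := t1 p hp; omega
      have := sum_le' L2 I (2 * s) (N + 1) (fun p hp => by have := t2 p hp; omega) p hp (by have := t2 p hp; omega)
      omega
  rcases (show s = 0 ∨ s = 1 ∨ s = 2 ∨ (s = 3 ∨ s = 4) ∨ 5 ≤ s by omega) with rfl | rfl | rfl | c | c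
  · have := sum_le L1 H 0 fun p hp => by have := t1 p hp; omega
    have := sum_le L2 I 0 fun p hp => by have := t2 p hp; omega
    omega
  · by_cases c : h = 1
    · have := fin (by omega) (by
        convert key g g' (by omega) a4 (by omega) a5 (by omega) (dvd_sub_comm.1 a2) (dvd_sub_comm.1 a3) <;> omega)
      omega
    · have := sum_le L1 H 1 fun p hp => by have := t1 p hp; omega
      have := sum_le L2 I 2 fun p hp => by have := t2 p hp; omega
      omega
  · obtain ⟨q, hq⟩ := List.exists_mem_of_length_pos (show 0 < L2.length by omega)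
    have := fin le_rfl (by
      by_cases c : I q = 2 * 2
      · have k : J q = 2 ∧ J' q = 2 := by
          have := c4 q hq
          have := c5 q hq
          have := c7 q hq
          omega
        have cp : IsCoprime (N + 1 : ℤ) 2 := ⟨1, -(L1.length + 2 * L2.length), by linarith⟩
        exact key 1 1 (by omega) le_rfl (by omega) le_rfl (.inl rfl)
          (cp.dvd_of_dvd_mul_left (by refine dve ((c2 q hq).neg_right) ?_; rw [k.1]; push_cast; ring))
          (cp.dvd_of_dvd_mul_left (by refine dve ((c3 q hq).neg_right) ?_; rw [k.2]; push_cast; ring))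
      · exact .inr ⟨q, hq, c⟩)
    omega
  · have := sum_le L1 H 4 fun p hp => (t1 p hp).1
    have := sum_le L2 I (7 - N) fun p hp => by have := t2 p hp; omega
    have : (2 : ℤ) * (N + 1) ≤ L2.length * (N + 1) := mul_le_mul_of_nonneg_right (by omega) K0.le
    have : h ≤ 3 - N := by omega
    linarith
  · have := sum_le L1 H (-1) fun p hp => by have := t1 p hp; omega
    have := sum_le L2 I 4 fun p hp => (t2 p hp).1
    omega

theorem no (e : ℕ) (L1 L2 : List ℕ) (N y : ℕ) (hN : N = 2 * L1.length + 4 * L2.length) (e0 : 0 < e) (N0 : 0 < N)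
    (h1 : ∀ p ∈ L1, 0 < p ∧ p < 1 * (N * e)) (h2 : ∀ p ∈ L2, 0 < p ∧ p < 2 * (N * e))
    (y1 : 1 ≤ y) (y2 : y ≤ (N + 1) * (N * e)) (y3 : (N + 1 : ℤ) ∣ y - 1)
    (w1 : ∀ p ∈ L1, Win N e 1 y p) (w2 : ∀ p ∈ L2, Win N e 2 y p) : ¬BJIT (items (N * e) L1 L2, N - 1, N) := by
  have hs := items_sum e L1 L2 N hN h1 h2
  have k : ∀ (c : ℕ) (L : List ℕ), (∀ p ∈ L, 0 < p ∧ p < c * (N * e)) → (∀ p ∈ L, Win N e c y p) →
      ∃ t : List (ℕ × ℤ), t.map Prod.fst = L.flatMap (g4 (c * (N * e))) ∧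
        (∀ p ∈ t, p.2 < (N + 1) * e ∧ ((N + 1) * (N * e) : ℤ) ∣ y * p.1 - p.2) ∧ 0 ≤ (t.map Prod.snd).sum := by
    intro c L h w
    induction L with
    | nil => exact ⟨[], rfl, by simp, le_rfl⟩
    | cons p L ih =>
      obtain ⟨t, t1, t2, t3⟩ := ih (fun q hq => h q (by simp [hq])) fun q hq => w q (by simp [hq])
      obtain ⟨s, s1, s2, s3⟩ := w p (by simp)
      have p1 := (h p (by simp)).2
      have q : (c * (N * e) - s : ℤ) < (N + 1) * e ∧
          ((N + 1) * (N * e) : ℤ) ∣ y * (c * (N * e) - p : ℕ) - (c * (N * e) - s) := ⟨by linarith, by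
        refine dve (dvd_sub ((mul_dvd_mul_right y3 (N * e)).mul_left c) s3) ?_; push_cast [p1.le]; ring⟩
      refine ⟨(p, s) :: (c * (N * e) - p, c * (N * e) - s) :: (p, s) :: (c * (N * e) - p, c * (N * e) - s) :: t,
        by simp [t1, g4], ?_, ?_⟩
      · simp only [List.forall_mem_cons]
        exact ⟨⟨s2, s3⟩, q, ⟨s2, s3⟩, q, t2⟩
      · simp only [List.map_cons, List.sum_cons]
        have : (0 : ℤ) ≤ c * (N * e) := by positivity
        linarith
  obtain ⟨t, t1, t2, t3⟩ := k 1 L1 h1 w1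
  obtain ⟨s, s1, s2, s3⟩ := k 2 L2 h2 w2
  refine no_seq _ N ((N + 1) * e) y (by rw [hs]; ring) (by positivity) N0 y1 (hs ▸ y2) ((N * e, N * e) :: (t ++ s))
    (by simp [items, t1, s1]) ?_ ?_
  · rw [hs]
    simp only [List.forall_mem_cons, List.forall_mem_append]
    push_cast
    refine ⟨⟨by linarith [show (0 : ℤ) < e by omega], ?_⟩, t2, s2⟩
    refine dve (mul_dvd_mul_right y3 (N * e)) ?_; ring
  · simp only [List.map_cons, List.sum_cons, List.map_append, List.sum_append]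
    have : (0 : ℤ) < N * e := by positivity
    linarith

end Pool.Agent.H.MP_cedc2d_lc
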