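import Pool.Agent.H.MP_cedc2d_lc.B
import Pool.Agent.Lib.lead.CXSat

namespace Pool.Agent.H.MP_cedc2d_lc

open Finset Pool.Agent.Lib.CX

def Y (M : ℕ) (v : ℕ → Bool) (j : ℕ) : ℕ := 1 + ∑ i ∈ range j, (v i).toNat * M ^ (i + 1)

theorem Y_succ (M v j) : Y M v (j + 1) = Y M v j + (v j).toNat * M ^ (j + 1) := by
  simp [Y, sum_range_succ, add_assoc]

theorem Y_le (M v j) (h : 2 ≤ M) : Y M v j ≤ 2 * M ^ j := by
  induction j with
  | zero => simp [Y]
  | succ j ih =>
    have := Nat.mul_le_mul_right (M ^ (j + 1)) (Bool.toNat_le (v j))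
    have := Nat.mul_le_mul_left (M ^ j) h
    rw [Y_succ, pow_succ] at *; omega

theorem Y_dvd (M : ℕ) (v j l) (h : j ≤ l) : (M : ℤ) ^ (j + 1) ∣ Y M v l - Y M v j := by
  induction l, h using Nat.le_induction with
  | base => simp
  | succ l h ih =>
    refine dve (dvd_add ih ((pow_dvd_pow (M : ℤ) (Nat.add_le_add_right h 1)).mul_left (v l).toNat)) ?_
    rw [Y_succ]; push_cast; ring

theorem Y_var (M n : ℕ) (v j) (h : 2 ≤ M) (jn : j ≤ n) : ∃ η : ℕ, η ≤ 2 * M ^ n ∧
    (M : ℤ) * (M * M ^ n) ∣ Y M v (n + 1) * M ^ (n - j) - (η + (v j).toNat * (M * M ^ n)) := by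
  obtain ⟨k, rfl⟩ := Nat.exists_eq_add_of_le jn
  refine ⟨Y M v j * M ^ k, by rw [pow_add, ← mul_assoc]; exact Nat.mul_le_mul_right _ (Y_le M v j h), ?_⟩
  have := mul_dvd_mul_right (Y_dvd M v (j + 1) (j + k + 1) (by omega)) ((M : ℤ) ^ k)
  rw [Nat.add_sub_cancel_left]
  rw [Y_succ M v j] at this
  exact dve (Dvd.dvd.trans (dvd_of_eq (by ring)) this) (by push_cast; ring)

theorem sound1 (N e p : ℕ) (z : ℤ) (N4 : 4 < N) (e0 : 0 < e) (h1 : Win N e 1 z p) (h2 : Win N e 1 z ((N + 1) * p)) :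
    ∃ (t s : ℤ) (α : Bool), -e < t ∧ t < (N + 1) * e ∧ -e < s ∧ s < (N + 1) * e ∧
      ((N + 1) * (N * e) : ℤ) ∣ z * p - t ∧ (N + 1) * t - s = α.toNat * ((N + 1) * (N * e)) := by
  obtain ⟨t, t1, t2, t3⟩ := h1
  obtain ⟨s, s1, s2, s3⟩ := h2
  obtain ⟨k, hk⟩ := dve (dvd_sub s3 (t3.mul_left (N + 1))) (show _ = (N + 1) * t - s by push_cast; ring)
  push_cast at *
  have e1 : (0 : ℤ) < e := by omega
  have K0 : (0 : ℤ) < N + 1 := by positivity
  have a1 := mul_lt_mul_of_pos_left t1 K0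
  have a2 := mul_lt_mul_of_pos_left t2 K0
  have n4 : (5 : ℤ) * ((N + 1) * e) ≤ N * ((N + 1) * e) := mul_le_mul_of_nonneg_right (by omega) (by positivity)
  have n5 : (0 : ℤ) ≤ N * e := by positivity
  have D0 : (0 : ℤ) < (N + 1) * (N * e) := by positivity
  have k1 : k ≤ 1 := lt_of D0 (by linarith)
  have k2 : -k ≤ 0 := lt_of D0 (by linarith)
  refine ⟨t, s, k = 1, by linarith, t2, by linarith, s2, t3, ?_⟩
  rcases (show k = 0 ∨ k = 1 by omega) with rfl | rfl <;> simpa using hk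

theorem sound2 (N e : ℕ) (N4 : 4 < N) (e0 : 0 < e) (τ t s A : ℤ) (τ1 : 2 * (N * e) - (N + 1) * e < τ)
    (τ2 : τ < (N + 1) * e) (t1 : -3 * e < t) (t2 : t < 3 * ((N + 1) * e)) (s1 : -3 * e < s)
    (s2 : s < 3 * ((N + 1) * e)) (d : ((N + 1) * (N * e) : ℤ) ∣ τ - t)
    (h : (N + 1) * t - s = A * ((N + 1) * (N * e))) : A = 1 := by
  have e1 : (0 : ℤ) < e := by omega
  have K0 : (0 : ℤ) < N + 1 := by positivity
  have n4 : (5 : ℤ) * ((N + 1) * e) ≤ N * ((N + 1) * e) := mul_le_mul_of_nonneg_right (by omega) (by positivity)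
  have n5 : (5 : ℤ) * e ≤ N * e := mul_le_mul_of_nonneg_right (by omega) e1.le
  have D0 : (0 : ℤ) < (N + 1) * (N * e) := by positivity
  obtain rfl : τ = t := by
    rcases tri D0 d with h | h | h
    · exact h
    · linarith
    · linarith
  have a1 := mul_lt_mul_of_pos_left τ1 K0
  have a2 := mul_lt_mul_of_pos_left τ2 K0
  have k1 : A ≤ 1 := lt_of D0 (by linarith)
  have k2 : -A ≤ -1 := lt_of D0 (by linarith)
  omega

def nN (m : ℕ) : ℕ := 16 * m + 12
def bM (m : ℕ) : ℕ := nN m * (4 * (nN m + 1))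
def E (m j : ℕ) : ℕ := bM m ^ (3 * m - j)
def ee (m : ℕ) : ℕ := 4 * (nN m + 1) * bM m ^ (3 * m)
def L1 (m : ℕ) : List ℕ := (List.range (3 * m + 1)).map (E m) ++ (List.range (3 * m + 1)).map fun j => (nN m + 1) * E m j
def L2 (φ : List (T3 ℕ)) : List ℕ := nN φ.length * ee φ.length :: nN φ.length * ee φ.length ::
  φ.map fun C => E φ.length C.1 + E φ.length C.2.1 + E φ.length C.2.2
def red (φ : List (T3 ℕ)) : Inst :=
  (items (nN φ.length * ee φ.length) (L1 φ.length) (L2 φ), nN φ.length - 1, nN φ.length)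

set_option synthInstance.maxSize 2000 in
theorem red_pt : PT red := by
  unfold red items g4 L1 L2 ee E bM nN; fun_prop

theorem E_le (m j : ℕ) : 0 < E m j ∧ E m j ≤ bM m ^ (3 * m) := by
  have : 0 < bM m := by unfold bM nN; positivity
  exact ⟨by unfold E; positivity, Nat.pow_le_pow_right this (Nat.sub_le _ _)⟩

theorem ee_pos (m : ℕ) : 0 < ee m := by unfold ee bM nN; positivity

theorem ee_ge (m : ℕ) : 4 * ((nN m + 1) * bM m ^ (3 * m)) ≤ nN m * ee m ∧
    13 * bM m ^ (3 * m) ≤ (nN m + 1) * bM m ^ (3 * m) :=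
  ⟨by rw [← mul_assoc]; exact Nat.le_mul_of_pos_left _ (by unfold nN; omega),
    Nat.mul_le_mul_right _ (by unfold nN; omega)⟩

theorem L1_ok (m : ℕ) : ∀ p ∈ L1 m, 0 < p ∧ p < 1 * (nN m * ee m) := by
  intro p hp
  have := ee_ge m
  simp only [L1, List.mem_append, List.mem_map] at hp
  rcases hp with ⟨j, -, rfl⟩ | ⟨j, -, rfl⟩
  · have := E_le m j; omega
  · have h := E_le m j
    have := Nat.mul_le_mul_left (nN m + 1) h.2
    exact ⟨Nat.mul_pos (by omega) h.1, by omega⟩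

theorem L2_ok (φ : List (T3 ℕ)) : ∀ p ∈ L2 φ, 0 < p ∧ p < 2 * (nN φ.length * ee φ.length) := by
  intro p hp
  have := ee_ge φ.length
  have := E_le φ.length 0
  simp only [L2, List.mem_cons, List.mem_map] at hp
  rcases hp with rfl | rfl | ⟨C, -, rfl⟩
  · omega
  · omega
  · have := E_le φ.length C.1
    have := E_le φ.length C.2.1
    have := E_le φ.length C.2.2
    omega

theorem red_ok (φ : List (T3 ℕ)) : (red φ).ok :=
  ⟨items_pos _ _ _ (Nat.mul_pos (by unfold nN; omega) (ee_pos _)) (L1_ok _) (L2_ok _), by unfold red nN; simp⟩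

theorem red_iff (φ : List (T3 ℕ)) (h : ∀ C ∈ φ, ∀ x ∈ C.vars, x < 3 * φ.length) : SatR one3 φ ↔ ¬BJIT (red φ) := by
  have hN : nN φ.length = 2 * (L1 φ.length).length + 4 * (L2 φ).length := by simp [L1, L2, nN]; omega
  have N4 : 4 < nN φ.length := by unfold nN; omega
  have e0 := ee_pos φ.length
  have hv : ∀ C ∈ φ, C.1 ≤ 3 * φ.length ∧ C.2.1 ≤ 3 * φ.length ∧ C.2.2 ≤ 3 * φ.length := fun C hC =>
    ⟨(h C hC _ (by simp [T3.vars])).le, (h C hC _ (by simp [T3.vars])).le, (h C hC _ (by simp [T3.vars])).le⟩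
  constructor
  · rintro ⟨v, hs⟩
    have M2 : 2 ≤ bM φ.length := by unfold bM; nlinarith
    have ea : bM φ.length * bM φ.length ^ (3 * φ.length) = nN φ.length * ee φ.length := by unfold ee; rw [bM]; ring
    have kd : (nN φ.length + 1 : ℤ) ∣ bM φ.length := ⟨4 * nN φ.length, by unfold bM; push_cast; ring⟩
    have y3 := kd.trans (show _ ∣ (Y (bM φ.length) v (3 * φ.length + 1) - 1 : ℤ) by
      simpa [Y] using Y_dvd (bM φ.length) v 0 (3 * φ.length + 1) (by omega))
    have g := ee_ge φ.length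
    have g2 : ee φ.length = 4 * ((nN φ.length + 1) * bM φ.length ^ (3 * φ.length)) := by unfold ee; ring
    have k : ∀ j ≤ 3 * φ.length, ∃ η : ℤ, 0 ≤ η ∧ 26 * η ≤ ee φ.length ∧
        ((nN φ.length + 1) * (nN φ.length * ee φ.length) : ℤ) ∣ Y (bM φ.length) v (3 * φ.length + 1) * E φ.length j -
          (η + (v j).toNat * (nN φ.length * ee φ.length)) := fun j hj => by
      obtain ⟨η, h1, h2⟩ := Y_var _ _ v j M2 hj
      refine ⟨η, by omega, by omega, ?_⟩
      have ea' : (bM φ.length * bM φ.length ^ (3 * φ.length) : ℤ) = nN φ.length * ee φ.length := by exact_mod_cast ea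
      rw [ea'] at h2
      exact dve ((mul_dvd_mul_right kd _).trans h2) (by unfold E; push_cast; rfl)
    have y1 : 1 ≤ Y (bM φ.length) v (3 * φ.length + 1) := Nat.le_add_right _ _
    have y2 := Y_le (bM φ.length) v (3 * φ.length + 1) M2
    rw [pow_succ', ea] at y2
    replace y2 := y2.trans (Nat.mul_le_mul_right _ (show 2 ≤ nN φ.length + 1 by omega))
    generalize Y (bM φ.length) v (3 * φ.length + 1) = y at *
    have e1 : (0 : ℤ) < ee φ.length := by omega
    have a0 : (0 : ℤ) ≤ nN φ.length * ee φ.length := by positivity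
    refine no _ _ _ _ y hN e0 (by omega) (L1_ok _) (L2_ok _) y1 y2 y3 (fun p hp => ?_) fun p hp => ?_
    · simp only [L1, List.mem_append, List.mem_map, List.mem_range] at hp
      rcases hp with ⟨j, hj, rfl⟩ | ⟨j, hj, rfl⟩ <;> obtain ⟨η, h1, h2, h3⟩ := k j (by omega)
      · refine ⟨_, ?_, ?_, h3⟩ <;> cases v j <;> simp only [Bool.toNat_false, Bool.toNat_true] <;> push_cast <;> linarith
      · refine ⟨(nN φ.length + 1) * η, ?_, mul_lt_mul_of_pos_left (by linarith) (by positivity),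
          dve (dvd_add (h3.mul_left (nN φ.length + 1)) (dvd_mul_left _ ((v j).toNat : ℤ))) (by push_cast; ring)⟩
        have : 0 ≤ (nN φ.length + 1) * η := by positivity
        push_cast; linarith
    · have q : Win (nN φ.length) (ee φ.length) 2 y (nN φ.length * ee φ.length) :=
        ⟨nN φ.length * ee φ.length, by push_cast; linarith, by linarith,
          dve (mul_dvd_mul_right y3 _) (by push_cast; ring)⟩
      simp only [L2, List.mem_cons, List.mem_map] at hp
      rcases hp with rfl | rfl | ⟨C, hC, rfl⟩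
      · exact q
      · exact q
      obtain ⟨a, a1, a2, a3⟩ := k _ (hv C hC).1
      obtain ⟨b, b1, b2, b3⟩ := k _ (hv C hC).2.1
      obtain ⟨c, c1, c2, c3⟩ := k _ (hv C hC).2.2
      have s : ((v C.1).toNat + (v C.2.1).toNat + (v C.2.2).toNat : ℤ) = 1 := by
        exact_mod_cast (by simpa [one3] using hs C hC)
      refine ⟨a + b + c + nN φ.length * ee φ.length, by push_cast; linarith, by linarith,
        dve (dvd_add (dvd_add a3 b3) c3) ?_⟩
      push_cast
      linear_combination (-(nN φ.length * ee φ.length)) * s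
  · intro hb
    by_contra n
    refine hb (yes _ _ _ _ hN e0 (by simp [L2]) (by simp [L1, L2]; omega) (L1_ok _) (L2_ok _) fun z ⟨w1, w2⟩ => n ?_)
    choose! t s v t1 t2 s1 s2 d e using fun j (hj : j ≤ 3 * φ.length) => sound1 _ _ (E φ.length j) z N4 e0
      (w1 _ (List.mem_append_left _ (List.mem_map_of_mem (List.mem_range.2 (by omega)))))
      (w1 _ (List.mem_append_right _ (List.mem_map.2 ⟨j, List.mem_range.2 (by omega), rfl⟩)))
    refine ⟨v, fun C hC => ?_⟩
    obtain ⟨a, b, c⟩ := hv C hC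
    obtain ⟨τ, τ1, τ2, τ3⟩ := w2 _ (List.mem_cons_of_mem _ (List.mem_cons_of_mem _ (List.mem_map_of_mem hC)))
    have := sound2 _ _ N4 e0 τ (t C.1 + t C.2.1 + t C.2.2) (s C.1 + s C.2.1 + s C.2.2)
      ((v C.1).toNat + (v C.2.1).toNat + (v C.2.2).toNat) τ1 τ2 (by linarith [t1 _ a, t1 _ b, t1 _ c])
      (by linarith [t2 _ a, t2 _ b, t2 _ c]) (by linarith [s1 _ a, s1 _ b, s1 _ c])
      (by linarith [s2 _ a, s2 _ b, s2 _ c])
      (dve (dvd_sub (dvd_add (dvd_add (d _ a) (d _ b)) (d _ c)) τ3) (by push_cast; ring))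
      (by linarith [e _ a, e _ b, e _ c])
    simp only [one3, beq_iff_eq]
    exact_mod_cast this

theorem hard : NPHard fun a : {a : Inst // a.ok} => ¬BJIT a.1 :=
  NPHard.of_one3 (fun φ => ⟨red φ, red_ok φ⟩) (red_pt.subtype _) fun φ h => red_iff φ fun C hC => (h C hC).2

end Pool.Agent.H.MP_cedc2d_lc
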