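import Pool.Agent.Lib.lead.CXDefs

namespace Pool.Agent.H.MP_cedc2d_lc

open Finset

/-- demands, and numerator and denominator of the bound -/
abbrev Inst := List ℕ × ℕ × ℕ

/-- all demands and the denominator are positive -/
def Inst.ok (a : Inst) : Prop := (∀ x ∈ a.1, 0 < x) ∧ 0 < a.2.2

/-- there is a just-in-time sequence whose bottleneck deviation is at most the bound -/
def BJIT (a : Inst) : Prop :=
  ∃ S : Fin a.1.sum → Fin a.1.length, (∀ i, (univ.filter fun t => S t = i).card = a.1[i]) ∧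
    ∀ i, ∀ k : ℕ, 1 ≤ k → k ≤ a.1.sum →
      |((univ.filter fun t : Fin a.1.sum => t.1 < k ∧ S t = i).card : ℚ) - k * ((a.1[i] : ℕ) / (a.1.sum : ℚ))| ≤
        (a.2.1 : ℚ) / a.2.2

end Pool.Agent.H.MP_cedc2d_lc
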